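import Pool.Agent.Helper41.LD4.Defs

/-!
# Project LD4, block TM1, part (iii): exact relations between two numbers with rational powers
-/

set_option autoImplicit false

namespace Pool.Agent.Helper64.LD4

open Set
open Pool.Agent.Helper41.LD4

/-- a rational number whose valuations vanish is `1` or `-1` -/
theorem natAbs_of_val {x : ℚ} (hx : x ≠ 0) (h : ∀ p : ℕ, p.Prime → padicValRat p x = 0) : x.num.natAbs = 1 ∧ x.den = 1 := by
  have hcop : x.num.natAbs.Coprime x.den := x.reduced
  have hnum : x.num.natAbs ≠ 0 := by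
    rw [Int.natAbs_ne_zero]
    exact Rat.num_ne_zero.2 hx
  have hval : ∀ p : ℕ, p.Prime → (padicValNat p x.num.natAbs : ℤ) = padicValNat p x.den := by
    intro p hp
    have h1 := h p hp
    rw [padicValRat_def] at h1
    have h2 : (padicValInt p x.num : ℤ) = padicValNat p x.num.natAbs := rfl
    rw [h2] at h1
    linarith
  constructor
  · by_contra h1
    obtain ⟨p, hp, hpd⟩ := Nat.exists_prime_and_dvd h1
    have := Fact.mk hp
    have h2 := hval p hp
    have h3 : 1 ≤ padicValNat p x.num.natAbs := one_le_padicValNat_of_dvd hnum hpd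
    have h4 : padicValNat p x.den = 0 := by
      apply padicValNat.eq_zero_of_not_dvd
      intro h5
      exact (Nat.Prime.one_lt hp).ne' (Nat.eq_one_of_dvd_coprimes hcop hpd h5)
    omega
  · by_contra h1
    obtain ⟨p, hp, hpd⟩ := Nat.exists_prime_and_dvd h1
    have := Fact.mk hp
    have h2 := hval p hp
    have h3 : 1 ≤ padicValNat p x.den := one_le_padicValNat_of_dvd x.den_ne_zero hpd
    have h4 : padicValNat p x.num.natAbs = 0 := by
      apply padicValNat.eq_zero_of_not_dvd
      intro h5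
      exact (Nat.Prime.one_lt hp).ne' (Nat.eq_one_of_dvd_coprimes hcop h5 hpd)
    omega

theorem eq_one_of_val {x : ℚ} (hx : 0 < x) (h : ∀ p : ℕ, p.Prime → padicValRat p x = 0) : x = 1 := by
  obtain ⟨h1, h2⟩ := natAbs_of_val hx.ne' h
  have h3 : 0 < x.num := Rat.num_pos.2 hx
  have h4 : x.num = 1 := by omega
  rw [← Rat.num_div_den x, h4, h2]
  norm_num

/-- two primes with a minor different from zero -/
theorem exists_minor {x y : ℚ} (hx : 1 < x) (hy : 1 < y) (hirr : Irrational (Real.log x / Real.log y)) :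
    ∃ p q : ℕ, p.Prime ∧ q.Prime ∧ padicValRat p x * padicValRat q y - padicValRat q x * padicValRat p y ≠ 0 := by
  by_contra hcon
  push Not at hcon
  have hx0 : x ≠ 0 := by positivity
  have hy0 : y ≠ 0 := by positivity
  obtain ⟨q, hq, hqy⟩ : ∃ q : ℕ, q.Prime ∧ padicValRat q y ≠ 0 := by
    by_contra h1
    push Not at h1
    have := eq_one_of_val (by linarith) h1
    linarith
  set b : ℤ := padicValRat q y with hb
  set a : ℤ := padicValRat q x with ha
  have key : x ^ b = y ^ a := by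
    have h1 : x ^ b * (y ^ a)⁻¹ = 1 := by
      apply eq_one_of_val (by positivity)
      intro p hp
      have := Fact.mk hp
      rw [padicValRat.mul (zpow_ne_zero _ hx0) (inv_ne_zero (zpow_ne_zero _ hy0)), padicValRat.inv, padicValRat.zpow, padicValRat.zpow]
      have := hcon p q hp hq
      rw [← hb, ← ha] at this
      linarith
    rwa [mul_inv_eq_one₀ (zpow_ne_zero _ hy0)] at h1
  apply hirr
  have hlx : 0 < Real.log x := Real.log_pos (by exact_mod_cast hx)
  have hly : 0 < Real.log y := Real.log_pos (by exact_mod_cast hy)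
  have h2 : (b : ℝ) * Real.log x = a * Real.log y := by
    have h3 : ((x : ℝ)) ^ b = (y : ℝ) ^ a := by exact_mod_cast key
    rw [← Real.log_zpow, ← Real.log_zpow, h3]
  have hb0 : (b : ℝ) ≠ 0 := by exact_mod_cast hqy
  refine ⟨(a : ℚ) / b, ?_⟩
  push_cast
  field_simp
  linarith

theorem val_nat_le {p : ℕ} (hp : p.Prime) (A : ℕ) : |padicValRat p (A : ℚ)| ≤ Nat.log 2 A := by
  rw [padicValRat.of_nat, abs_of_nonneg (Int.natCast_nonneg _)]
  have h1 : padicValNat p A ≤ Nat.log p A := padicValNat_le_nat_log A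
  have h2 : Nat.log p A ≤ Nat.log 2 A := Nat.log_anti_left (by norm_num) hp.two_le
  exact_mod_cast h1.trans h2

/-- the exact relations: the exponent is at most a constant times the height -/
theorem height_rat {t s : ℝ} (ht : 1 < t) (hs : 1 < s) (ht2 : RatPow t) (hs2 : RatPow s) (hirr : Irrational (Real.log t / Real.log s)) :
    ∃ c : ℕ, ∀ (d : ℕ) (e : ℤ) (A B : ℕ), 1 ≤ A → 1 ≤ B → t ^ d * A = s ^ e * B → d ≤ c * (Nat.log 2 A + Nat.log 2 B) := by
  obtain ⟨r, hr, x, hx⟩ := ht2
  obtain ⟨r', hr', y, hy⟩ := hs2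
  have hx1 : 1 < x := by
    have : (1 : ℝ) < x := by rw [← hx]; exact one_lt_pow₀ ht (by omega)
    exact_mod_cast this
  have hy1 : 1 < y := by
    have : (1 : ℝ) < y := by rw [← hy]; exact one_lt_pow₀ hs (by omega)
    exact_mod_cast this
  have hx0 : x ≠ 0 := by positivity
  have hy0 : y ≠ 0 := by positivity
  have hrR : (r : ℝ) ≠ 0 := by exact_mod_cast (by omega : r ≠ 0)
  have hr'R : (r' : ℝ) ≠ 0 := by exact_mod_cast (by omega : r' ≠ 0)
  have hirr2 : Irrational (Real.log x / Real.log y) := by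
    intro ⟨z, hz⟩
    apply hirr
    refine ⟨z * r' / r, ?_⟩
    have hls : Real.log s ≠ 0 := (Real.log_pos hs).ne'
    rw [← hx, ← hy, Real.log_pow, Real.log_pow] at hz
    push_cast
    rw [hz]
    field_simp
  obtain ⟨p, q, hp, hq, hΔ⟩ := exists_minor hx1 hy1 hirr2
  have := Fact.mk hp
  have := Fact.mk hq
  refine ⟨r * ((padicValRat p y).natAbs + (padicValRat q y).natAbs), ?_⟩
  intro d e A B hA hB h
  have hAq : (A : ℚ) ≠ 0 := by exact_mod_cast (by omega : A ≠ 0)
  have hBq : (B : ℚ) ≠ 0 := by exact_mod_cast (by omega : B ≠ 0)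
  have hrat : x ^ (r' * d) * (A : ℚ) ^ (r * r') = y ^ ((r : ℤ) * e) * (B : ℚ) ^ (r * r') := by
    have h1 : ((x : ℝ)) ^ (r' * d) * (A : ℝ) ^ (r * r') = (y : ℝ) ^ ((r : ℤ) * e) * (B : ℝ) ^ (r * r') := by
      have h2 : (t ^ d * A) ^ (r * r') = (s ^ e * B) ^ (r * r') := by rw [h]
      rw [mul_pow, mul_pow] at h2
      have h3 : (t ^ d) ^ (r * r') = (x : ℝ) ^ (r' * d) := by
        rw [← hx, ← pow_mul, ← pow_mul]; congr 1; ring
      have h4 : (s ^ e) ^ (r * r') = (y : ℝ) ^ ((r : ℤ) * e) := by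
        rw [← hy, ← zpow_natCast, ← zpow_mul, ← zpow_natCast, ← zpow_mul]
        congr 1
        push_cast
        ring
      rw [h3, h4] at h2
      exact h2
    exact_mod_cast h1
  have hval : ∀ l : ℕ, l.Prime → (r' : ℤ) * d * padicValRat l x + r * r' * padicValRat l (A : ℚ) =
      r * e * padicValRat l y + r * r' * padicValRat l (B : ℚ) := by
    intro l hl
    have := Fact.mk hl
    have h1 := congrArg (padicValRat l) hrat
    rw [padicValRat.mul (pow_ne_zero _ hx0) (pow_ne_zero _ hAq), padicValRat.mul (zpow_ne_zero _ hy0) (pow_ne_zero _ hBq),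
      padicValRat.pow, padicValRat.pow, padicValRat.pow, padicValRat.zpow] at h1
    push_cast at h1
    linarith
  have h1 := hval p hp
  have h2 := hval q hq
  set xp := padicValRat p x
  set xq := padicValRat q x
  set yp := padicValRat p y
  set yq := padicValRat q y
  set Ap := padicValRat p (A : ℚ) with hAp
  set Aq := padicValRat q (A : ℚ) with hAq'
  set Bp := padicValRat p (B : ℚ) with hBp
  set Bq := padicValRat q (B : ℚ) with hBq'
  have h3 : (d : ℤ) * (xp * yq - xq * yp) = r * ((Bp - Ap) * yq - (Bq - Aq) * yp) := by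
    have hr'0 : (r' : ℤ) ≠ 0 := by exact_mod_cast (by omega : r' ≠ 0)
    apply mul_left_cancel₀ hr'0
    linear_combination yq * h1 - yp * h2
  have h4 : (d : ℤ) ≤ |(d : ℤ) * (xp * yq - xq * yp)| := by
    rw [abs_mul, abs_of_nonneg (Int.natCast_nonneg d)]
    have : 1 ≤ |xp * yq - xq * yp| := Int.one_le_abs hΔ
    nlinarith [Int.natCast_nonneg d]
  have h5 : |(r : ℤ) * ((Bp - Ap) * yq - (Bq - Aq) * yp)| ≤ r * ((|yp| + |yq|) * (Nat.log 2 A + Nat.log 2 B)) := by
    rw [abs_mul, abs_of_nonneg (Int.natCast_nonneg r)]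
    apply mul_le_mul_of_nonneg_left _ (Int.natCast_nonneg r)
    have b1 : |Bp - Ap| ≤ Nat.log 2 A + Nat.log 2 B := by
      refine (abs_sub _ _).trans ?_
      have := val_nat_le hp A
      have := val_nat_le hp B
      linarith
    have b2 : |Bq - Aq| ≤ Nat.log 2 A + Nat.log 2 B := by
      refine (abs_sub _ _).trans ?_
      have := val_nat_le hq A
      have := val_nat_le hq B
      linarith
    calc |(Bp - Ap) * yq - (Bq - Aq) * yp| ≤ |(Bp - Ap) * yq| + |(Bq - Aq) * yp| := abs_sub _ _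
      _ = |Bp - Ap| * |yq| + |Bq - Aq| * |yp| := by rw [abs_mul, abs_mul]
      _ ≤ (Nat.log 2 A + Nat.log 2 B) * |yq| + (Nat.log 2 A + Nat.log 2 B) * |yp| :=
        add_le_add (mul_le_mul_of_nonneg_right b1 (abs_nonneg _)) (mul_le_mul_of_nonneg_right b2 (abs_nonneg _))
      _ = _ := by ring
  have h6 : (d : ℤ) ≤ r * ((|yp| + |yq|) * (Nat.log 2 A + Nat.log 2 B)) := by
    rw [h3] at h4
    exact h4.trans h5
  zify
  have h7 : (r : ℤ) * ((|yp| + |yq|) * (Nat.log 2 A + Nat.log 2 B)) = r * (|yp| + |yq|) * (Nat.log 2 A + Nat.log 2 B) := by ring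
  rw [h7] at h6
  exact h6

end Pool.Agent.Helper64.LD4
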