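import Pool.Agent.Helper23.LD3.TA
import Pool.Agent.Helper64.LD4.Height

/-!
# Project LD4, block TM1, case (iii): both numbers have a rational power
-/

set_option autoImplicit false

namespace Pool.Agent.Helper64.LD4

open Set Filter Topology
open Pool.Agent.Helper41.LD4
open Pool.Agent.Helper23.LD3 (Close Bad)

/-- a bad exponent, in terms of logarithms -/
private def Rel34 (x y δ : ℝ) (H u : ℕ) : Prop :=
  ∃ v a b : ℕ, 1 ≤ a ∧ a ≤ H ∧ 1 ≤ b ∧ b ≤ H ∧
    |(v : ℝ) * x - u * y - (Real.log a - Real.log b)| ≤ δ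

/-- the difference of two bad exponents -/
private def R234 (x y δ : ℝ) (M d : ℕ) (e : ℤ) (A B : ℕ) : Prop :=
  1 ≤ A ∧ A ≤ M ∧ 1 ≤ B ∧ B ≤ M ∧ |(e : ℝ) * x - d * y - (Real.log A - Real.log B)| ≤ δ

private theorem abs_log34 {η : ℝ} (h : |η| ≤ 1 / 2) : |Real.log (1 + η)| ≤ 2 * |η| := by
  have h1 := abs_le.1 h
  have hpos : 0 < 1 + η := by linarith [h1.1]
  rw [abs_le]
  constructor
  · have h2 := Real.one_sub_inv_le_log_of_pos hpos
    have h3 : -(2 * |η|) ≤ 1 - (1 + η)⁻¹ := by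
      have h4 : 1 - (1 + η)⁻¹ = η / (1 + η) := by field_simp; ring
      rw [h4, le_div_iff₀ hpos]
      rcases le_or_gt 0 η with h5 | h5
      · rw [abs_of_nonneg h5]; nlinarith
      · rw [abs_of_neg h5]; rw [abs_of_neg h5] at h; nlinarith
    linarith
  · have h2 := Real.log_le_sub_one_of_pos hpos
    have h3 := le_abs_self η
    have h4 := abs_nonneg η
    linarith

private theorem rel_of_bad34 {t s : ℝ} (ht : 1 < t) (hs : 1 < s) {K X u : ℕ} (hX : 1 ≤ X)
    (h : Bad t s K X u) :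
    Rel34 (Real.log s) (Real.log t) (2 / X) (2 ^ (24 * K + 4)) u := by
  obtain ⟨v, h1, h2, q, hq1, hq2, p, hp⟩ := h
  have hsv : 0 < s ^ v := by positivity
  have htu : 0 < t ^ u := by positivity
  set r : ℝ := s ^ v / t ^ u with hr
  have hr0 : 0 < r := by positivity
  have hri : t ^ u / s ^ v = r⁻¹ := by rw [hr, inv_div]
  rw [hri] at hp
  have hr2 : r⁻¹ < 2 ^ (12 * K) := by
    rw [inv_lt_comm₀ hr0 (by positivity)]
    calc ((2 : ℝ) ^ (12 * K))⁻¹ = (1 / 2) ^ (12 * K) := by rw [one_div, inv_pow]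
      _ < r := h1
  set α : ℝ := max r r⁻¹ with hα
  have hα1 : 1 ≤ α := by
    rcases le_or_gt 1 r with h3 | h3
    · exact le_trans h3 (le_max_left _ _)
    · exact le_trans (one_le_inv_iff₀.2 ⟨hr0, h3.le⟩) (le_max_right _ _)
  have hα2 : α < 2 ^ (12 * K) := max_lt h2 hr2
  have hα0 : 0 < α := by linarith
  have hXr : (1 : ℝ) ≤ X := by exact_mod_cast hX
  have hX2 : 1 / ((X : ℝ) + 1) ≤ 1 / 2 := by
    apply one_div_le_one_div_of_le <;> linarith
  have hq1r : (1 : ℝ) ≤ q := by exact_mod_cast hq1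
  have hq2r : (q : ℝ) ≤ 2 ^ (12 * K + 3) := by exact_mod_cast hq2
  have hqα : 1 ≤ q * α := by nlinarith
  have hp' := abs_le.1 (le_trans hp hX2)
  have hp1 : 1 ≤ p := by
    have : (0 : ℝ) < p := by linarith [hp'.2]
    exact_mod_cast this
  have hp1r : (1 : ℝ) ≤ p := by exact_mod_cast hp1
  have hp2 : (p : ℝ) ≤ 2 ^ (24 * K + 4) := by
    have h4 : q * α ≤ 2 ^ (12 * K + 3) * 2 ^ (12 * K) := by
      apply mul_le_mul hq2r hα2.le hα0.le (by positivity)
    have h5 : (2 : ℝ) ^ (12 * K + 3) * 2 ^ (12 * K) = 2 ^ (24 * K + 3) := by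
      rw [← pow_add]; ring_nf
    have h6 : (2 : ℝ) ^ (24 * K + 4) = 2 * 2 ^ (24 * K + 3) := by ring
    have h7 : (1 : ℝ) ≤ 2 ^ (24 * K + 3) := one_le_pow₀ (by norm_num)
    rw [h5] at h4
    rw [h6]
    linarith [hp'.1]
  obtain ⟨P, rfl⟩ := Int.eq_ofNat_of_zero_le (by omega : 0 ≤ p)
  have hP1 : 1 ≤ P := by exact_mod_cast hp1
  have hP1r : (1 : ℝ) ≤ P := by exact_mod_cast hP1
  have hP2 : P ≤ 2 ^ (24 * K + 4) := by
    have : ((P : ℤ) : ℝ) = (P : ℝ) := by push_cast; rfl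
    rw [this] at hp2
    exact_mod_cast hp2
  have hcast : (((P : ℕ) : ℤ) : ℝ) = (P : ℝ) := by push_cast; rfl
  rw [hcast] at hp
  -- the logarithm
  have key : |Real.log α - (Real.log P - Real.log q)| ≤ 2 / X := by
    set η : ℝ := (q * α - P) / P with hη
    have hP0 : (0 : ℝ) < P := by linarith
    have hq0 : (0 : ℝ) < q := by linarith
    have h3 : |η| ≤ 1 / ((X : ℝ) + 1) := by
      rw [hη, abs_div, abs_of_pos hP0, div_le_iff₀ hP0]
      have h4 : (0 : ℝ) < 1 / ((X : ℝ) + 1) := by positivity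
      nlinarith
    have h4 : Real.log (1 + η) = Real.log α - (Real.log P - Real.log q) := by
      have : 1 + η = q * α / P := by rw [hη]; field_simp; ring
      rw [this, Real.log_div (by positivity) (by positivity),
        Real.log_mul (by positivity) (by positivity)]
      ring
    rw [← h4]
    have h5 := abs_log34 (h3.trans hX2)
    have h6 : 1 / ((X : ℝ) + 1) ≤ 1 / X := one_div_le_one_div_of_le (by linarith) (by linarith)
    have h7 : (2 : ℝ) / X = 2 * (1 / X) := by ring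
    rw [h7]
    linarith
  have hqH : q ≤ 2 ^ (24 * K + 4) :=
    hq2.trans (Nat.pow_le_pow_right (by norm_num) (by omega))
  have hlogr : Real.log r = v * Real.log s - u * Real.log t := by
    rw [hr, Real.log_div (by positivity) (by positivity), Real.log_pow, Real.log_pow]
  rcases le_total r⁻¹ r with h3 | h3
  · have hαr : α = r := max_eq_left h3
    rw [hαr, hlogr] at key
    exact ⟨v, P, q, hP1, hP2, hq1, hqH, key⟩
  · have hαr : α = r⁻¹ := max_eq_right h3
    rw [hαr, Real.log_inv, hlogr] at key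
    refine ⟨v, q, P, hq1, hqH, hP1, hP2, ?_⟩
    rw [← abs_neg] at key
    convert key using 2
    ring

private theorem diff34 {x y δ : ℝ} {H u₁ u₂ : ℕ} (hu : u₁ ≤ u₂) (h1 : Rel34 x y δ H u₁)
    (h2 : Rel34 x y δ H u₂) : ∃ (e : ℤ) (A B : ℕ), R234 x y (2 * δ) (H * H) (u₂ - u₁) e A B := by
  obtain ⟨v₁, a₁, b₁, ha1, ha1', hb1, hb1', h1⟩ := h1
  obtain ⟨v₂, a₂, b₂, ha2, ha2', hb2, hb2', h2⟩ := h2
  refine ⟨(v₂ : ℤ) - v₁, a₂ * b₁, b₂ * a₁, Nat.mul_pos ha2 hb1, Nat.mul_le_mul ha2' hb1',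
    Nat.mul_pos hb2 ha1, Nat.mul_le_mul hb2' ha1', ?_⟩
  have e1 : (0 : ℝ) < a₁ := by exact_mod_cast ha1
  have e2 : (0 : ℝ) < a₂ := by exact_mod_cast ha2
  have e3 : (0 : ℝ) < b₁ := by exact_mod_cast hb1
  have e4 : (0 : ℝ) < b₂ := by exact_mod_cast hb2
  push_cast [Nat.cast_sub hu]
  rw [Real.log_mul e2.ne' e3.ne', Real.log_mul e4.ne' e1.ne']
  have h1' := abs_le.1 h1
  have h2' := abs_le.1 h2
  rw [abs_le]
  constructor
  · linarith [h1'.1, h1'.2, h2'.1, h2'.2]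
  · linarith [h1'.1, h1'.2, h2'.1, h2'.2]

private theorem log_two34 (K : ℕ) (hK : 1 ≤ K) :
    Real.log ((2 ^ (24 * K + 4) * 2 ^ (24 * K + 4) : ℕ) : ℝ) ≤ 40 * K := by
  push_cast
  rw [← pow_add, Real.log_pow]
  push_cast
  have h1 := Real.log_two_lt_d9
  have hK1 : (1 : ℝ) ≤ K := by exact_mod_cast hK
  nlinarith


/-- different natural numbers have different logarithms -/
private theorem log_gap {a b : ℕ} {T : ℝ} (ha : 1 ≤ a) (hb : 1 ≤ b) (hne : a ≠ b) (haT : Real.log a ≤ T) (hbT : Real.log b ≤ T) :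
    Real.exp (-T) ≤ |Real.log a - Real.log b| := by
  have step : ∀ P Q : ℕ, 1 ≤ P → P < Q → Real.log Q ≤ T → Real.exp (-T) ≤ Real.log Q - Real.log P := by
    intro P Q hP1 hPQ hQ2
    have hP0 : (0 : ℝ) < P := by exact_mod_cast hP1
    have hQ0' : 0 < Q := by omega
    have hQ0 : (0 : ℝ) < Q := by exact_mod_cast hQ0'
    have h3 := Real.one_sub_inv_le_log_of_pos (div_pos hQ0 hP0)
    rw [Real.log_div hQ0.ne' hP0.ne', inv_div] at h3
    have h4 : 1 / (Q : ℝ) ≤ 1 - P / Q := by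
      rw [div_le_iff₀ hQ0, sub_mul, div_mul_cancel₀ _ hQ0.ne', one_mul]
      have : (P : ℝ) + 1 ≤ Q := by exact_mod_cast hPQ
      linarith
    have h5 : Real.exp (-T) ≤ 1 / Q := by
      rw [Real.exp_neg, one_div]
      apply inv_anti₀ hQ0
      calc (Q : ℝ) = Real.exp (Real.log Q) := (Real.exp_log hQ0).symm
        _ ≤ _ := Real.exp_le_exp.2 hQ2
    linarith
  rcases lt_or_gt_of_ne hne with h | h
  · have := step a b ha h hbT
    rw [abs_sub_comm]
    exact this.trans (le_abs_self _)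
  · exact (step b a hb h haT).trans (le_abs_self _)

/-- an approximate relation of small height is exact -/
private theorem exact_rel {x y δ T : ℝ} {r r' P Q P' Q' : ℕ} (hr : 1 ≤ r) (hr' : 1 ≤ r') (hP : 1 ≤ P) (hQ : 1 ≤ Q) (hP' : 1 ≤ P')
    (hQ' : 1 ≤ Q') (hy : r * y = Real.log P - Real.log Q) (hx : r' * x = Real.log P' - Real.log Q') {d : ℕ} {e : ℤ} {A B : ℕ}
    (hA : 1 ≤ A) (hB : 1 ≤ B) (h : |(e : ℝ) * x - d * y - (Real.log A - Real.log B)| ≤ δ)
    (hT : r' * d * (Real.log P + Real.log Q) + r * |(e : ℝ)| * (Real.log P' + Real.log Q') + r * r' * (Real.log A + Real.log B) ≤ T)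
    (hδ : r * r' * δ < Real.exp (-T)) : (e : ℝ) * x - d * y = Real.log A - Real.log B := by
  obtain ⟨P₁, Q₁, hP₁, hQ₁, hle, hle', heq⟩ : ∃ P₁ Q₁ : ℕ, 1 ≤ P₁ ∧ 1 ≤ Q₁ ∧ Real.log P₁ ≤ Real.log P' + Real.log Q' ∧
      Real.log Q₁ ≤ Real.log P' + Real.log Q' ∧
      (e.natAbs : ℝ) * (Real.log P₁ - Real.log Q₁) = -(e * (Real.log P' - Real.log Q')) := by
    have h1 : 0 ≤ Real.log P' := Real.log_natCast_nonneg _
    have h2 : 0 ≤ Real.log Q' := Real.log_natCast_nonneg _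
    rcases le_total 0 e with h3 | h3
    · refine ⟨Q', P', hQ', hP', by linarith, by linarith, ?_⟩
      have : ((e.natAbs : ℕ) : ℝ) = e := by
        rw [Nat.cast_natAbs, Int.cast_abs, abs_of_nonneg (by exact_mod_cast h3)]
      rw [this]; ring
    · refine ⟨P', Q', hP', hQ', by linarith, by linarith, ?_⟩
      have : ((e.natAbs : ℕ) : ℝ) = -e := by
        rw [Nat.cast_natAbs, Int.cast_abs, abs_of_nonpos (by exact_mod_cast h3)]
      rw [this]; ring
  have hn : ((e.natAbs : ℕ) : ℝ) = |(e : ℝ)| := by rw [Nat.cast_natAbs, Int.cast_abs]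
  set n := e.natAbs with hnd
  set a : ℕ := P ^ (r' * d) * P₁ ^ (r * n) * A ^ (r * r') with ha
  set b : ℕ := Q ^ (r' * d) * Q₁ ^ (r * n) * B ^ (r * r') with hb
  have pos : ∀ m : ℕ, 1 ≤ m → (m : ℝ) ≠ 0 := fun m hm => by exact_mod_cast (by omega : m ≠ 0)
  have ha1 : 1 ≤ a := Nat.mul_pos (Nat.mul_pos (pow_pos hP _) (pow_pos hP₁ _)) (pow_pos hA _)
  have hb1 : 1 ≤ b := Nat.mul_pos (Nat.mul_pos (pow_pos hQ _) (pow_pos hQ₁ _)) (pow_pos hB _)
  have la : Real.log a = r' * d * Real.log P + r * n * Real.log P₁ + r * r' * Real.log A := by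
    rw [ha]; push_cast
    rw [Real.log_mul (mul_ne_zero (pow_ne_zero _ (pos _ hP)) (pow_ne_zero _ (pos _ hP₁))) (pow_ne_zero _ (pos _ hA)),
      Real.log_mul (pow_ne_zero _ (pos _ hP)) (pow_ne_zero _ (pos _ hP₁)), Real.log_pow, Real.log_pow, Real.log_pow]
    push_cast; ring
  have lb : Real.log b = r' * d * Real.log Q + r * n * Real.log Q₁ + r * r' * Real.log B := by
    rw [hb]; push_cast
    rw [Real.log_mul (mul_ne_zero (pow_ne_zero _ (pos _ hQ)) (pow_ne_zero _ (pos _ hQ₁))) (pow_ne_zero _ (pos _ hB)),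
      Real.log_mul (pow_ne_zero _ (pos _ hQ)) (pow_ne_zero _ (pos _ hQ₁)), Real.log_pow, Real.log_pow, Real.log_pow]
    push_cast; ring
  have nn : ∀ m : ℕ, 0 ≤ Real.log m := fun m => Real.log_natCast_nonneg m
  have r0 : (0 : ℝ) ≤ r := Nat.cast_nonneg _
  have r0' : (0 : ℝ) ≤ r' := Nat.cast_nonneg _
  have d0 : (0 : ℝ) ≤ d := Nat.cast_nonneg _
  have n0 : (0 : ℝ) ≤ n := Nat.cast_nonneg _
  rw [← hn] at hT
  have t1 : (r : ℝ) * n * Real.log P₁ ≤ r * n * (Real.log P' + Real.log Q') := mul_le_mul_of_nonneg_left hle (mul_nonneg r0 n0)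
  have t2 : (r : ℝ) * n * Real.log Q₁ ≤ r * n * (Real.log P' + Real.log Q') := mul_le_mul_of_nonneg_left hle' (mul_nonneg r0 n0)
  have t3 : 0 ≤ (r' : ℝ) * d * Real.log P := mul_nonneg (mul_nonneg r0' d0) (nn _)
  have t4 : 0 ≤ (r' : ℝ) * d * Real.log Q := mul_nonneg (mul_nonneg r0' d0) (nn _)
  have t5 : 0 ≤ (r : ℝ) * r' * Real.log A := mul_nonneg (mul_nonneg r0 r0') (nn _)
  have t6 : 0 ≤ (r : ℝ) * r' * Real.log B := mul_nonneg (mul_nonneg r0 r0') (nn _)
  have haT : Real.log a ≤ T := by rw [la]; linarith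
  have hbT : Real.log b ≤ T := by rw [lb]; linarith
  have hdiff : Real.log a - Real.log b = -(r * r' * ((e : ℝ) * x - d * y - (Real.log A - Real.log B))) := by
    rw [la, lb]
    linear_combination (-(r' : ℝ) * d) * hy + (r : ℝ) * heq + (r : ℝ) * e * hx
  have hrr : (0 : ℝ) < r * r' := by
    have : 0 < r * r' := Nat.mul_pos hr hr'
    exact_mod_cast this
  by_cases hab : a = b
  · rw [hab, sub_self] at hdiff
    have h1 : (r : ℝ) * r' * ((e : ℝ) * x - d * y - (Real.log A - Real.log B)) = 0 := by linarith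
    rcases mul_eq_zero.1 h1 with h2 | h2
    · exact absurd h2 hrr.ne'
    · linarith
  · exfalso
    have h1 := log_gap ha1 hb1 hab haT hbT
    rw [hdiff, abs_neg, abs_mul, abs_of_pos hrr] at h1
    have h2 := mul_le_mul_of_nonneg_left h hrr.le
    linarith

/-- a rational number greater than 1, its logarithm -/
private theorem log_ratPow {t : ℝ} (ht : 1 < t) (h : RatPow t) :
    ∃ r P Q : ℕ, 1 ≤ r ∧ 1 ≤ P ∧ 1 ≤ Q ∧ r * Real.log t = Real.log P - Real.log Q := by
  obtain ⟨r, hr, x, hx⟩ := h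
  have hx1 : 1 < x := by
    have : (1 : ℝ) < x := by rw [← hx]; exact one_lt_pow₀ ht (by omega)
    exact_mod_cast this
  have hnum : 0 < x.num := Rat.num_pos.2 (by linarith)
  refine ⟨r, x.num.toNat, x.den, hr, by omega, x.den_pos, ?_⟩
  have h1 : ((x.num.toNat : ℕ) : ℝ) = (x.num : ℝ) := by
    have : ((x.num.toNat : ℕ) : ℤ) = x.num := Int.toNat_of_nonneg hnum.le
    exact_mod_cast congrArg (Int.cast : ℤ → ℝ) this
  have h2 : (x : ℝ) = (x.num : ℝ) / x.den := by exact_mod_cast (Rat.num_div_den x).symm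
  rw [h1, ← Real.log_pow, hx, h2, Real.log_div]
  · exact_mod_cast hnum.ne'
  · exact_mod_cast x.den_ne_zero

open Classical in
/-- both numbers have a rational power -/
theorem bad_count_rat {t s : ℝ} {κ : ℕ} (hκ : 1 ≤ κ) (ht : 1 < t) (hs : 1 < s) (ht2 : RatPow t) (hs2 : RatPow s)
    (hirr : Irrational (Real.log t / Real.log s)) :
    ∃ c' : ℕ, 1 ≤ c' ∧ ∀ C V : ℕ, 1 ≤ C → 1 ≤ V → ∃ D : ℝ, 0 < D ∧ ∀ᶠ K : ℕ in atTop, ∀ X : ℕ, Real.exp (D * (K : ℝ) ^ (2 * κ)) ≤ X → ∀ u₀ : ℕ,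
      (((Finset.Ico u₀ (u₀ + C * K)).filter fun u => Bad t s K X u).card : ℝ) ≤ max (c' * (K : ℝ) + 1) ((C : ℝ) * K / V + 1) := by
  obtain ⟨c, hc⟩ := height_rat ht hs ht2 hs2 hirr
  have hx : 0 < Real.log s := Real.log_pos hs
  have hy : 0 < Real.log t := Real.log_pos ht
  obtain ⟨r, P, Q, hr, hP, hQ, hyr⟩ := log_ratPow ht ht2
  obtain ⟨r', P', Q', hr', hP', hQ', hxr⟩ := log_ratPow hs hs2
  refine ⟨112 * c + 1, by omega, ?_⟩
  intro C V hC hV
  set x := Real.log s with hxd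
  set y := Real.log t with hyd
  have nn : ∀ m : ℕ, 0 ≤ Real.log m := fun m => Real.log_natCast_nonneg m
  have hCr : (1 : ℝ) ≤ C := by exact_mod_cast hC
  set E₁ : ℝ := (C * y + 41) / x with hE₁
  have hE₁0 : 0 < E₁ := by positivity
  set C₂ : ℝ := r' * C * (Real.log P + Real.log Q) + r * E₁ * (Real.log P' + Real.log Q') + r * r' * 80 with hC₂
  have hC₂0 : 0 ≤ C₂ := by
    have := nn P
    have := nn Q
    have := nn P'
    have := nn Q'
    positivity
  refine ⟨C₂ + 1, by linarith, ?_⟩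
  have ev1 : ∀ᶠ K : ℕ in atTop, 4 * ((r : ℝ) * r') < Real.exp K :=
    (Real.tendsto_exp_atTop.comp tendsto_natCast_atTop_atTop).eventually_gt_atTop _
  filter_upwards [ev1, eventually_ge_atTop 4] with K h1 hK X hX u₀
  have hK1 : (1 : ℝ) ≤ K := by exact_mod_cast (by omega : 1 ≤ K)
  have hK4 : (4 : ℝ) ≤ K := by exact_mod_cast hK
  set Z : ℝ := (K : ℝ) ^ (2 * κ) with hZ
  have hZ2 : (K : ℝ) ^ 2 ≤ Z := pow_le_pow_right₀ hK1 (by omega)
  have hZK : (K : ℝ) ≤ Z := by nlinarith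
  have hXexp : Real.exp ((C₂ + 1) * K) ≤ X := by
    refine le_trans (Real.exp_le_exp.2 ?_) hX
    exact mul_le_mul_of_nonneg_left hZK (by linarith)
  have hX0 : (0 : ℝ) < X := lt_of_lt_of_le (Real.exp_pos _) hXexp
  have hX1 : 1 ≤ X := by exact_mod_cast hX0
  have hX4 : (4 : ℝ) ≤ X := by
    have h2 := Real.add_one_le_exp ((C₂ + 1) * (K : ℝ))
    have h3 : (K : ℝ) ≤ (C₂ + 1) * K := by nlinarith
    linarith
  set S := (Finset.Ico u₀ (u₀ + C * K)).filter fun u => Bad t s K X u with hS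
  refine le_trans ?_ (le_max_left _ _)
  rcases S.eq_empty_or_nonempty with hemp | hne
  · rw [hemp, Finset.card_empty]
    push_cast
    positivity
  set a := S.min' hne with had
  set b := S.max' hne with hbd
  have haS : a ∈ S := Finset.min'_mem _ _
  have hbS : b ∈ S := Finset.max'_mem _ _
  have hle : ∀ u ∈ S, a ≤ u := fun u hu => Finset.min'_le _ _ hu
  have hge : ∀ u ∈ S, u ≤ b := fun u hu => Finset.le_max' _ _ hu
  have hab : a ≤ b := hle b hbS
  have hbN : b - a ≤ C * K := by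
    have h3 := (Finset.mem_Ico.1 (Finset.mem_filter.1 haS).1)
    have h4 := (Finset.mem_Ico.1 (Finset.mem_filter.1 hbS).1)
    omega
  have hrel : ∀ u ∈ S, Rel34 x y (2 / X) (2 ^ (24 * K + 4)) u := fun u hu =>
    rel_of_bad34 ht hs hX1 (Finset.mem_filter.1 hu).2
  obtain ⟨e, A, B, hA, hAM, hB, hBM, hR⟩ := diff34 hab (hrel a haS) (hrel b hbS)
  have hδ : (2 : ℝ) * (2 / X) = 4 / X := by ring
  rw [hδ] at hR
  have lM := log_two34 K (by omega)
  set H : ℕ := 2 ^ (24 * K + 4) with hH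
  have lM0 : 0 ≤ Real.log ((H * H : ℕ) : ℝ) := Real.log_natCast_nonneg _
  have lA : Real.log A ≤ Real.log ((H * H : ℕ) : ℝ) := Real.log_le_log (by exact_mod_cast hA) (by exact_mod_cast hAM)
  have lB : Real.log B ≤ Real.log ((H * H : ℕ) : ℝ) := Real.log_le_log (by exact_mod_cast hB) (by exact_mod_cast hBM)
  have hdr : ((b - a : ℕ) : ℝ) ≤ C * K := by exact_mod_cast hbN
  have hd0 : (0 : ℝ) ≤ ((b - a : ℕ) : ℝ) := Nat.cast_nonneg _
  have he : |(e : ℝ)| ≤ K * E₁ := by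
    have h2 : |(e : ℝ)| * x ≤ C * K * y + 40 * K + 1 := by
      have habs : |(e : ℝ)| * x = |(e : ℝ) * x| := by rw [abs_mul, abs_of_pos hx]
      have h' := abs_le.1 hR
      have h4 : 4 / (X : ℝ) ≤ 1 := by rw [div_le_one hX0]; exact hX4
      have hdy : ((b - a : ℕ) : ℝ) * y ≤ C * K * y := mul_le_mul_of_nonneg_right hdr hy.le
      have hdy0 : 0 ≤ ((b - a : ℕ) : ℝ) * y := by positivity
      rw [habs, abs_le]
      constructor
      · linarith [h'.1, nn A, nn B]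
      · linarith [h'.2, nn A, nn B]
    rw [hE₁, ← mul_div_assoc, le_div_iff₀ hx]
    refine h2.trans ?_
    nlinarith
  have hexact := exact_rel (T := C₂ * K) hr hr' hP hQ hP' hQ' hyr hxr hA hB hR
    (by
      have i1 : (r' : ℝ) * ((b - a : ℕ) : ℝ) * (Real.log P + Real.log Q) ≤ r' * (C * K) * (Real.log P + Real.log Q) :=
        mul_le_mul_of_nonneg_right (mul_le_mul_of_nonneg_left hdr (Nat.cast_nonneg _)) (add_nonneg (nn _) (nn _))
      have i2 : (r : ℝ) * |(e : ℝ)| * (Real.log P' + Real.log Q') ≤ r * (K * E₁) * (Real.log P' + Real.log Q') :=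
        mul_le_mul_of_nonneg_right (mul_le_mul_of_nonneg_left he (Nat.cast_nonneg _)) (add_nonneg (nn _) (nn _))
      have i3 : (r : ℝ) * r' * (Real.log A + Real.log B) ≤ r * r' * (80 * K) :=
        mul_le_mul_of_nonneg_left (by linarith) (by positivity)
      calc _ ≤ r' * (C * K) * (Real.log P + Real.log Q) + r * (K * E₁) * (Real.log P' + Real.log Q') + r * r' * (80 * K) :=
            add_le_add (add_le_add i1 i2) i3
        _ = C₂ * K := by rw [hC₂]; ring)
    (by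
      have h3 : (r : ℝ) * r' * (4 / X) = 4 * (r * r') / X := by ring
      rw [h3, div_lt_iff₀ hX0]
      calc 4 * ((r : ℝ) * r') < Real.exp K := h1
        _ = Real.exp (-(C₂ * K)) * Real.exp ((C₂ + 1) * K) := by
          rw [← Real.exp_add]; congr 1; ring
        _ ≤ _ := mul_le_mul_of_nonneg_left hXexp (Real.exp_pos _).le)
  -- the exact relation
  have hA0 : (0 : ℝ) < A := by exact_mod_cast hA
  have hB0 : (0 : ℝ) < B := by exact_mod_cast hB
  have hpow : t ^ (b - a) * (A : ℝ) = s ^ e * B := by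
    have ht0 : 0 < t := by linarith
    have hs0 : 0 < s := by linarith
    have l1 : Real.log (t ^ (b - a) * (A : ℝ)) = Real.log (s ^ e * B) := by
      rw [Real.log_mul (by positivity) hA0.ne', Real.log_mul (by positivity) hB0.ne', Real.log_pow, Real.log_zpow]
      rw [← hxd, ← hyd]
      linarith
    exact Real.log_injOn_pos (Set.mem_Ioi.2 (by positivity)) (Set.mem_Ioi.2 (by positivity)) l1
  have hcd := hc (b - a) e A B hA hB hpow
  have hlog : ∀ m : ℕ, 1 ≤ m → m ≤ H * H → Nat.log 2 m ≤ 48 * K + 8 := by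
    intro m _ hm
    have h2 : H * H = 2 ^ (48 * K + 8) := by rw [hH, ← pow_add]; congr 1; ring
    rw [h2] at hm
    calc Nat.log 2 m ≤ Nat.log 2 (2 ^ (48 * K + 8)) := Nat.log_mono_right hm
      _ = _ := Nat.log_pow (by norm_num) _
  have hlA := hlog A hA hAM
  have hlB := hlog B hB hBM
  have hba : b - a ≤ 112 * c * K := by
    refine hcd.trans ?_
    calc c * (Nat.log 2 A + Nat.log 2 B) ≤ c * (112 * K) := Nat.mul_le_mul_left _ (by omega)
      _ = _ := by ring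
  have hcard : S.card ≤ b - a + 1 := by
    have h2 : S ⊆ Finset.Icc a b := fun u hu => Finset.mem_Icc.2 ⟨hle u hu, hge u hu⟩
    have h3 := Finset.card_le_card h2
    rw [Nat.card_Icc] at h3
    omega
  have h9 : S.card ≤ (112 * c + 1) * K + 1 := by
    have : (112 * c + 1) * K = 112 * c * K + K := by ring
    omega
  exact_mod_cast h9

end Pool.Agent.Helper64.LD4
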